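import Pool.Agent.R284.RC.Stm

set_option autoImplicit false
open MeasureTheory Set Filter Topology
open scoped ENNReal NNReal

namespace Pool.Agent.R176.RC

open Pool.Agent.R284.RC

lemma LB_mono {n : ℕ} {p : ℝ} {μ : Measure (E n)} {D : Set (E n)} {S S' : ℝ} (h : LB p μ D S)
    (hS : S' ≤ S) : LB p μ D S' := fun τ hτ hD => hS.trans (h τ hτ hD)

/-- quadratic inequality -/
lemma quad {y W K : ℝ} (hW : 0 ≤ W) (hK : 0 ≤ K) (h : y ^ 2 ≤ K + 2 * W * y) :
    y ≤ 2 * W + Real.sqrt K := by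
  by_contra hc
  push Not at hc
  have hs := Real.sqrt_nonneg K
  have hsq := Real.sq_sqrt hK
  have hy : Real.sqrt K < y := by linarith
  have h1 : (y - 2 * W) * y > Real.sqrt K * y :=
    mul_lt_mul_of_pos_right (by linarith) (by linarith)
  have h2 : Real.sqrt K * Real.sqrt K ≤ Real.sqrt K * y :=
    mul_le_mul_of_nonneg_left hy.le hs
  nlinarith

/-- splitting of an integral over a decreasing sequence of sets -/
lemma split_int {n : ℕ} {σ : Measure (E n)} {f : E n → ℝ} (hf : Integrable f σ)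
    {D : ℕ → Set (E n)} (hD : ∀ j, MeasurableSet (D j)) (hanti : Antitone D) (k : ℕ) :
    ∫ y in D 0, f y ∂σ = (∑ i ∈ Finset.range k, ∫ y in D i \ D (i + 1), f y ∂σ) +
      ∫ y in D k, f y ∂σ := by
  induction k with
  | zero => simp
  | succ k ih =>
    rw [ih, Finset.sum_range_succ, add_assoc]
    congr 1
    have hu : D k = (D k \ D (k + 1)) ∪ D (k + 1) :=
      (sdiff_union_of_subset (hanti (Nat.le_succ k))).symm
    conv_lhs => rw [hu]
    exact setIntegral_union disjoint_sdiff_left (hD _) hf.integrableOn hf.integrableOn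

theorem iter_proof (hgain : S_gain) (hmass : S_mass) (hcls : S_cls) (hint : S_int) : S_iter := by
  intro n p q hp hpq μ hμf hBP V hV hLow C1 C2 γ hOpt η G P S0 L e0 hη hG hP hS0 hL D T hDm hanti
    hTm hTμ hkr hkrL hLB0 hfar hc1 hc2 hc3 hc4 hc5
  obtain ⟨hC1, hC2, hγ, hO1, hO2⟩ := hOpt
  by_cases hnull : ∃ k, μ (D k) = 0
  · obtain ⟨k, hk⟩ := hnull
    exact measure_mono_null (iInter_subset D k) hk
  push Not at hnull
  have hmpos : ∀ k, 0 < (μ (D k)).toReal := fun k =>
    ENNReal.toReal_pos (hnull k) (measure_ne_top μ _)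
  set s : ℕ → ℝ := fun j => S0 * (2 : ℝ) ^ ((P + 1) * (j : ℝ)) with hs
  have hS0p : (0 : ℝ) < S0 := by linarith
  have hpow1 : ∀ j : ℕ, (1 : ℝ) ≤ (2 : ℝ) ^ ((P + 1) * (j : ℝ)) := fun j =>
    Real.one_le_rpow (by norm_num) (by positivity)
  have hsS0 : ∀ j, S0 ≤ s j := fun j => by
    simp only [hs]
    nlinarith [hpow1 j]
  have hs1 : ∀ j, 1 ≤ s j := fun j => hS0.trans (hsS0 j)
  have hsp : ∀ j, 0 < s j := fun j => by linarith [hs1 j]
  have hsmono : ∀ i j : ℕ, i ≤ j → s i ≤ s j := by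
    intro i j hij
    simp only [hs]
    refine mul_le_mul_of_nonneg_left ?_ hS0p.le
    refine Real.rpow_le_rpow_of_exponent_le (by norm_num) ?_
    have : (i : ℝ) ≤ j := by exact_mod_cast hij
    nlinarith
  have hsucc : ∀ j, s (j + 1) = s j * (2 : ℝ) ^ (P + 1) := by
    intro j
    simp only [hs]
    rw [mul_assoc, ← Real.rpow_add (by norm_num)]
    congr 2
    push_cast
    ring
  have hrp : ∀ j, (s j) ^ (-γ) ≤ S0 ^ (-γ) := fun j =>
    Real.rpow_le_rpow_of_nonpos hS0p (hsS0 j) (by linarith)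
  have hrnn : ∀ j, 0 < (s j) ^ (-γ) := fun j => Real.rpow_pos_of_pos (hsp j) _
  have hsg : ∀ j, s j * (s j) ^ (-γ) = (s j) ^ (1 - γ) := by
    intro j
    rw [sub_eq_add_neg, Real.rpow_add (hsp j), Real.rpow_one]
  have hsr : ∀ i j : ℕ, i ≤ j → s i * (s j) ^ (-γ) ≤ 1 := by
    intro i j hij
    calc s i * (s j) ^ (-γ) ≤ s j * (s j) ^ (-γ) :=
          mul_le_mul_of_nonneg_right (hsmono i j hij) (hrnn j).le
      _ = (s j) ^ (1 - γ) := hsg j
      _ ≤ 1 := Real.rpow_le_one_of_one_le_of_nonpos (hs1 j) (by linarith)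
  have hmj : ∀ j, LB p μ (D j) (s j) → (μ (D j)).toReal ≤ C2 * (s j) ^ (-γ) := fun j h =>
    hO2 (D j) (hDm j) (s j) (hs1 j) h
  have key : ∀ j, LB p μ (D j) (s j) := by
    intro j
    induction j using Nat.strong_induction_on with
    | _ j ih =>
    rcases j with _ | j
    · refine LB_mono hLB0 ?_
      simp [hs]
    have IH : ∀ i ≤ j, LB p μ (D i) (s i) := fun i hi => ih i (Nat.lt_succ_of_le hi)
    have hm := hmj j (IH j le_rfl)
    set m := (μ (D j)).toReal with hmdef
    have hm0 : 0 < m := hmpos j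
    have hmS : m ≤ C2 * S0 ^ (-γ) := hm.trans (mul_le_mul_of_nonneg_left (hrp j) hC2.le)
    have hmhalf : m ≤ 1 / 2 := by nlinarith
    obtain ⟨σ, hσ, hσD, hσE⟩ := hO1 (D j) (hDm j) hmhalf (2 * C1 * m) (by nlinarith)
    have hδ1 : 2 * C1 * m ≤ 2 * C1 * C2 * (s j) ^ (-γ) := by
      have := mul_le_mul_of_nonneg_left hm (show (0 : ℝ) ≤ 2 * C1 by linarith)
      linarith
    have hδ2 : 2 * C1 * m ≤ 2 * C1 * C2 * S0 ^ (-γ) := by
      have := mul_le_mul_of_nonneg_left hmS (show (0 : ℝ) ≤ 2 * C1 by linarith)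
      linarith
    have hδpos : 0 < 2 * C1 * m := by positivity
    have hσp : IsProbabilityMeasure σ := hσ.1
    obtain ⟨c, hc⟩ := hσ.2.1
    have hσT : σ (T ∩ (D j)ᶜ)ᶜ = 0 := by
      rw [compl_inter, compl_compl]
      refine measure_union_null ?_ hσD
      have h1 := hc Tᶜ
      simp only [Measure.smul_apply, hTμ, smul_zero, nonpos_iff_eq_zero] at h1
      exact h1
    -- masses
    set C3 := 2 * (V + L) + Real.sqrt (2 * C1 * C2) with hC3
    have hC3nn : 0 ≤ C3 := by
      have := Real.sqrt_nonneg (2 * C1 * C2)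
      rw [hC3]
      linarith
    have hmassi : ∀ i ≤ j, (σ (D i)).toReal * s i ≤ C3 := by
      intro i hi
      have h1 := hmass n p q hp hpq μ hμf hBP V hV hLow σ hσ (D i) (T ∩ (D j)ᶜ) (hDm i)
        (hTm.inter (hDm j).compl) (2 * C1 * m) (s i) L hδpos.le (hsp i).le hL hσE (IH i hi) hσT
        (fun x hx y hy => hkrL j x hx.1 y hy.1 hx.2 hy.2)
      have ha : 0 ≤ (σ (D i)).toReal := ENNReal.toReal_nonneg
      refine quad (by linarith) (by positivity) ?_
      have h2 : 2 * C1 * m * s i ≤ 2 * C1 * C2 := by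
        calc 2 * C1 * m * s i ≤ 2 * C1 * C2 * (s j) ^ (-γ) * s i :=
              mul_le_mul_of_nonneg_right hδ1 (hsp i).le
          _ = 2 * C1 * C2 * (s i * (s j) ^ (-γ)) := by ring
          _ ≤ 2 * C1 * C2 * 1 := mul_le_mul_of_nonneg_left (hsr i j hi) (by positivity)
          _ = _ := mul_one _
      have h3 := mul_le_mul_of_nonneg_right h1 (hsp i).le
      nlinarith
    -- potential
    have hBPσ : BP q σ := (hcls n q μ hμf).2.1 hBP σ hσ
    have hI : ∀ x, Integrable (fun y => kr p x y) σ := by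
      intro x
      exact (hint n p q hp hpq σ σ inferInstance inferInstance hBPσ hσ.2.2 hσ.2.2).2.1 x
    have hU : ∀ x ∈ D (j + 1), U p σ x ≤ V - η := by
      intro x hx
      have hx1 : x ∈ D 1 := hanti (by omega) hx
      have hfar' := hfar j σ hσ hσD (by linarith) x hx1
      have hsplit : U p σ x = (∫ y in D 0, kr p x y ∂σ) + ∫ y in (D 0)ᶜ, kr p x y ∂σ :=
        (integral_add_compl (hDm 0) (hI x)).symm
      have hDj0 : ∫ y in D j, kr p x y ∂σ = 0 := by
        rw [Measure.restrict_eq_zero.2 hσD, integral_zero_measure]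
      rw [hsplit, split_int (hI x) hDm hanti j, hDj0, add_zero]
      have hterm : ∀ i ∈ Finset.range j, ∫ y in D i \ D (i + 1), kr p x y ∂σ ≤
          G * C3 / S0 * (1 / 2) ^ i := by
        intro i hi
        have hij : i < j := Finset.mem_range.1 hi
        have hb : ∀ y ∈ D i \ D (i + 1), kr p x y ≤ G * (2 : ℝ) ^ (P * (i : ℝ)) := fun y hy =>
          hkr i x (hanti (by omega) hx) y hy.2 hy.1
        have h1 : ∫ y in D i \ D (i + 1), kr p x y ∂σ ≤
            ∫ y in D i \ D (i + 1), G * (2 : ℝ) ^ (P * (i : ℝ)) ∂σ :=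
          setIntegral_mono_on (hI x).integrableOn (integrable_const _).integrableOn
            ((hDm i).diff (hDm (i + 1))) hb
        rw [setIntegral_const, smul_eq_mul] at h1
        have h2 : σ.real (D i \ D (i + 1)) ≤ (σ (D i)).toReal :=
          measureReal_mono sdiff_subset
        have h3 := hmassi i hij.le
        have hGp : 0 ≤ G * (2 : ℝ) ^ (P * (i : ℝ)) := by positivity
        calc _ ≤ _ := h1
          _ ≤ (σ (D i)).toReal * (G * (2 : ℝ) ^ (P * (i : ℝ))) :=
              mul_le_mul_of_nonneg_right h2 hGp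
          _ ≤ C3 / s i * (G * (2 : ℝ) ^ (P * (i : ℝ))) :=
              mul_le_mul_of_nonneg_right ((le_div_iff₀ (hsp i)).2 h3) hGp
          _ = G * C3 / S0 * (1 / 2) ^ i := by
              simp only [hs]
              have e1 : (2 : ℝ) ^ ((P + 1) * (i : ℝ)) = (2 : ℝ) ^ (P * (i : ℝ)) * 2 ^ i := by
                rw [add_mul, one_mul, Real.rpow_add (by norm_num), Real.rpow_natCast]
              rw [e1]
              have : (0 : ℝ) < (2 : ℝ) ^ (P * (i : ℝ)) := by positivity
              rw [one_div_pow]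
              field_simp
      have hsum : ∑ i ∈ Finset.range j, ∫ y in D i \ D (i + 1), kr p x y ∂σ ≤ η := by
        calc _ ≤ ∑ i ∈ Finset.range j, G * C3 / S0 * (1 / 2 : ℝ) ^ i := Finset.sum_le_sum hterm
          _ = G * C3 / S0 * ∑ i ∈ Finset.range j, (1 / 2 : ℝ) ^ i := by rw [Finset.mul_sum]
          _ ≤ G * C3 / S0 * 2 := by
              refine mul_le_mul_of_nonneg_left ?_ (by positivity)
              have hg : ∀ k : ℕ, ∑ i ∈ Finset.range k, (1 / 2 : ℝ) ^ i = 2 - 2 * (1 / 2) ^ k := by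
                intro k
                induction k with
                | zero => simp
                | succ k ihk => rw [Finset.sum_range_succ, ihk, pow_succ]; ring
              rw [hg]
              have : (0 : ℝ) < (1 / 2) ^ j := by positivity
              linarith
          _ ≤ η := by
              rw [div_mul_eq_mul_div, div_le_iff₀ hS0p]
              linarith
      linarith
    have hg := hgain n p q hp hpq μ hμf hBP V hLow σ hσ (D (j + 1)) (hDm _) (2 * C1 * m) η hδpos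
      (by linarith) hσE hU
    refine LB_mono hg ?_
    have h1 : s (j + 1) ≤ η ^ 2 / (4 * (2 * C1 * m)) := by
      rw [le_div_iff₀ (by positivity), hsucc]
      have h2 : (s j) ^ (1 - γ) ≤ S0 ^ (1 - γ) :=
        Real.rpow_le_rpow_of_nonpos hS0p (hsS0 j) (by linarith)
      have h3 : S0 ^ (γ - 1) * S0 ^ (1 - γ) = 1 := by
        rw [← Real.rpow_add hS0p]
        simp
      have h4 : 0 < S0 ^ (1 - γ) := Real.rpow_pos_of_pos hS0p _
      have hP2 : (0 : ℝ) < (2 : ℝ) ^ (P + 1) := by positivity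
      calc s j * (2 : ℝ) ^ (P + 1) * (4 * (2 * C1 * m))
          ≤ s j * (2 : ℝ) ^ (P + 1) * (4 * (2 * C1 * C2 * (s j) ^ (-γ))) := by
            refine mul_le_mul_of_nonneg_left (by linarith) (by have := hsp j; positivity)
        _ = 8 * C1 * C2 * (2 : ℝ) ^ (P + 1) * (s j * (s j) ^ (-γ)) := by ring
        _ = 8 * C1 * C2 * (2 : ℝ) ^ (P + 1) * (s j) ^ (1 - γ) := by rw [hsg]
        _ ≤ 8 * C1 * C2 * (2 : ℝ) ^ (P + 1) * S0 ^ (1 - γ) :=
            mul_le_mul_of_nonneg_left h2 (by positivity)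
        _ ≤ η ^ 2 * S0 ^ (γ - 1) * S0 ^ (1 - γ) := mul_le_mul_of_nonneg_right hc2 h4.le
        _ = η ^ 2 := by rw [mul_assoc, h3, mul_one]
    linarith
  -- conclusion
  have hlim : Tendsto (fun j : ℕ => C2 * (1 / 2 : ℝ) ^ j) atTop (𝓝 0) := by
    have := (tendsto_pow_atTop_nhds_zero_of_lt_one (by norm_num : (0 : ℝ) ≤ 1 / 2)
      (by norm_num)).const_mul C2
    simpa using this
  have hle : ∀ j, (μ (⋂ j, D j)).toReal ≤ C2 * (1 / 2 : ℝ) ^ j := by
    intro j
    have h1 : (μ (⋂ j, D j)).toReal ≤ (μ (D j)).toReal :=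
      ENNReal.toReal_mono (measure_ne_top μ _) (measure_mono (iInter_subset D j))
    refine h1.trans ((hmj j (key j)).trans (mul_le_mul_of_nonneg_left ?_ hC2.le))
    have h2 : (2 : ℝ) ^ j ≤ s j := by
      simp only [hs]
      have : (2 : ℝ) ^ (j : ℝ) ≤ (2 : ℝ) ^ ((P + 1) * (j : ℝ)) := by
        refine Real.rpow_le_rpow_of_exponent_le (by norm_num) ?_
        have : (0 : ℝ) ≤ j := Nat.cast_nonneg j
        nlinarith
      rw [Real.rpow_natCast] at this
      have h5 : (0 : ℝ) < (2 : ℝ) ^ ((P + 1) * (j : ℝ)) := by positivity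
      nlinarith
    have h3 := hsr j j le_rfl
    have h4 : (s j) ^ (-γ) ≤ 1 / s j := by
      rw [le_div_iff₀ (hsp j)]
      linarith
    refine h4.trans ?_
    rw [one_div_pow]
    exact one_div_le_one_div_of_le (by positivity) h2
  have h0 : (μ (⋂ j, D j)).toReal ≤ 0 := ge_of_tendsto' hlim hle
  have h1 : (μ (⋂ j, D j)).toReal = 0 := le_antisymm h0 ENNReal.toReal_nonneg
  exact (ENNReal.toReal_eq_zero_iff _).1 h1 |>.resolve_right (measure_ne_top μ _)

end Pool.Agent.R176.RC
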